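import Mathlib

set_option autoImplicit false

namespace Pool.Agent.Results.MP_dd1479_lc.Infinite

/-- FL_ew-algebras: commutative residuated lattices with `1` on top and `f` at the bottom. -/
class FLew (A : Type) extends Lattice A, CommMonoid A where
  imp : A → A → A
  f : A
  res : ∀ a b c : A, a * b ≤ c ↔ b ≤ imp a c
  le_one : ∀ a : A, a ≤ 1
  f_le : ∀ a : A, f ≤ a

inductive Fm
  | var (n : ℕ)
  | and (φ ψ : Fm)
  | or (φ ψ : Fm)
  | mul (φ ψ : Fm)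
  | imp (φ ψ : Fm)
  | e
  | f

def Fm.vars : Fm → Finset ℕ
  | .var n => {n}
  | .and φ ψ => φ.vars ∪ ψ.vars
  | .or φ ψ => φ.vars ∪ ψ.vars
  | .mul φ ψ => φ.vars ∪ ψ.vars
  | .imp φ ψ => φ.vars ∪ ψ.vars
  | .e => ∅
  | .f => ∅

def Fm.subst (σ : ℕ → Fm) : Fm → Fm
  | .var n => σ n
  | .and φ ψ => .and (φ.subst σ) (ψ.subst σ)
  | .or φ ψ => .or (φ.subst σ) (ψ.subst σ)
  | .mul φ ψ => .mul (φ.subst σ) (ψ.subst σ)
  | .imp φ ψ => .imp (φ.subst σ) (ψ.subst σ)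
  | .e => .e
  | .f => .f

def Fm.eval {A : Type} [FLew A] (v : ℕ → A) : Fm → A
  | .var n => v n
  | .and φ ψ => φ.eval v ⊓ ψ.eval v
  | .or φ ψ => φ.eval v ⊔ ψ.eval v
  | .mul φ ψ => φ.eval v * ψ.eval v
  | .imp φ ψ => FLew.imp (φ.eval v) (ψ.eval v)
  | .e => 1
  | .f => FLew.f

/-- The consequence relation of FL_ew. -/
def Cons (Γ : Set Fm) (φ : Fm) : Prop :=
  ∀ (A : Type) [FLew A] (v : ℕ → A), (∀ γ ∈ Γ, γ.eval v = 1) → φ.eval v = 1

/-- The extension of FL_ew by the extra theorems `Ax`. -/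
def Ext (Ax : Set Fm) (Γ : Set Fm) (φ : Fm) : Prop := Cons (Γ ∪ Ax) φ

def SubstClosed (Ax : Set Fm) : Prop := ∀ σ : ℕ → Fm, ∀ φ ∈ Ax, φ.subst σ ∈ Ax

/-- Craig interpolation for a set of theorems. -/
def CIP (T : Set Fm) : Prop :=
  ∀ α β, Fm.imp α β ∈ T → ∃ δ, Fm.imp α δ ∈ T ∧ Fm.imp δ β ∈ T ∧ δ.vars ⊆ α.vars ∩ β.vars

/-! ### The algebras -/

structure Mod : Type 1 where
  X : Type
  ne : Nonempty X
  S : Set (Set X)
  h0 : ∅ ∉ S
  h1 : Set.univ ∉ S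

@[ext] structure El (M : Mod) where
  t : Prop
  A : Set M.X
  P : Prop
  hP : P → A ∈ M.S
  ht : t → A = Set.univ

namespace El
variable {M : Mod}

lemma ntp (x : El M) (h : x.t) : ¬ x.P := fun p => M.h1 (x.ht h ▸ x.hP p)

def le (x y : El M) : Prop := x.A ⊆ y.A ∧ (x.A = y.A → x.P → y.P) ∧ (x.t → y.t)

def sup (x y : El M) : El M :=
  ⟨x.t ∨ y.t, x.A ∪ y.A, (x.A ∪ y.A = x.A ∧ x.P) ∨ (x.A ∪ y.A = y.A ∧ y.P), by
    rintro (⟨e, p⟩ | ⟨e, p⟩)
    · rw [e]; exact x.hP p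
    · rw [e]; exact y.hP p, by
    rintro (h | h)
    · simp [x.ht h]
    · simp [y.ht h]⟩

def inf (x y : El M) : El M :=
  ⟨x.t ∧ y.t, x.A ∩ y.A, x.A ∩ y.A ∈ M.S ∧ (x.A ∩ y.A = x.A → x.P) ∧ (x.A ∩ y.A = y.A → y.P),
    fun h => h.1, fun h => by simp [x.ht h.1, y.ht h.2]⟩

def mul (x y : El M) : El M :=
  ⟨x.t ∧ y.t, x.A ∩ y.A, (x.t ∧ y.P) ∨ (y.t ∧ x.P), by
    rintro (⟨e, p⟩ | ⟨e, p⟩)
    · simpa [x.ht e] using y.hP p
    · simpa [y.ht e] using x.hP p, fun h => by simp [x.ht h.1, y.ht h.2]⟩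

def imp (x y : El M) : El M :=
  ⟨le x y, x.Aᶜ ∪ y.A, x.Aᶜ ∪ y.A ∈ M.S ∧ (x.t → y.P), fun h => h.1,
    fun h => by
      ext a
      by_cases hx : a ∈ x.A
      · simp [h.1 hx]
      · simp [hx]⟩

def bl (p : Prop) : El M := ⟨p, {_x | p}, False, False.elim, fun h => by simp [h]⟩

lemma res (x z y : El M) : le (mul x z) y ↔ le z (imp x y) := by
  constructor
  · rintro ⟨h1, h2, h3⟩
    refine ⟨fun a ha => ?_, fun e p => ⟨?_, fun t => h2 ?_ (Or.inl ⟨t, p⟩)⟩,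
      fun t => ⟨?_, fun e p => h2 ?_ (Or.inr ⟨t, p⟩), fun t' => h3 ⟨t', t⟩⟩⟩
    · by_cases hx : a ∈ x.A
      · exact Or.inr (h1 ⟨hx, ha⟩)
      · exact Or.inl hx
    · have := z.hP p
      rwa [e] at this
    · simpa [mul, imp, x.ht t] using e
    · simpa [mul, z.ht t] using h1
    · simpa [mul, z.ht t] using e
  · rintro ⟨h1, h2, h3⟩
    refine ⟨fun a ha => (h1 ha.2).resolve_left (not_not.2 ha.1), ?_, fun t => (h3 t.2).2.2 t.1⟩
    rintro e (⟨t, p⟩ | ⟨t, p⟩)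
    · exact (h2 (by simpa [mul, imp, x.ht t] using e) p).2 t
    · exact (h3 t).2.1 (by simpa [mul, z.ht t] using e) p

instance : Mul (El M) := ⟨mul⟩
instance : One (El M) := ⟨bl True⟩

instance : FLew (El M) where
  le := le
  le_refl _ := ⟨le_rfl, fun _ h => h, id⟩
  le_trans x y z h h' := ⟨h.1.trans h'.1, fun e p =>
    h'.2.1 (h'.1.antisymm (e ▸ h.1)) (h.2.1 (h.1.antisymm (e ▸ h'.1)) p),
    fun t => h'.2.2 (h.2.2 t)⟩
  le_antisymm x y h h' := by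
    have e := h.1.antisymm h'.1
    exact El.ext (propext ⟨h.2.2, h'.2.2⟩) e (propext ⟨h.2.1 e, h'.2.1 e.symm⟩)
  sup := sup
  le_sup_left x y := ⟨Set.subset_union_left, fun e p => Or.inl ⟨e.symm, p⟩, Or.inl⟩
  le_sup_right x y := ⟨Set.subset_union_right, fun e p => Or.inr ⟨e.symm, p⟩, Or.inr⟩
  sup_le x y z h h' := ⟨Set.union_subset h.1 h'.1, by
    rintro e (⟨e', p⟩ | ⟨e', p⟩)
    · exact h.2.1 (e'.symm.trans e) p
    · exact h'.2.1 (e'.symm.trans e) p, fun t => t.elim h.2.2 h'.2.2⟩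
  inf := inf
  inf_le_left x y := ⟨Set.inter_subset_left, fun e p => p.2.1 e, And.left⟩
  inf_le_right x y := ⟨Set.inter_subset_right, fun e p => p.2.2 e, And.right⟩
  le_inf x y z h h' := ⟨Set.subset_inter h.1 h'.1, fun e p =>
    ⟨by have := x.hP p; rwa [e] at this, fun e' => h.2.1 (e.trans e') p,
      fun e' => h'.2.1 (e.trans e') p⟩, fun t => ⟨h.2.2 t, h'.2.2 t⟩⟩
  mul_assoc x y z := El.ext (propext and_assoc) (Set.inter_assoc _ _ _) (propext (by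
    show ((x.t ∧ y.t) ∧ z.P) ∨ (z.t ∧ ((x.t ∧ y.P) ∨ (y.t ∧ x.P))) ↔
      (x.t ∧ ((y.t ∧ z.P) ∨ (z.t ∧ y.P))) ∨ ((y.t ∧ z.t) ∧ x.P)
    tauto))
  one_mul x := El.ext (propext ⟨And.right, fun h => ⟨trivial, h⟩⟩) (Set.univ_inter _) (propext (by
    show (True ∧ x.P) ∨ (x.t ∧ False) ↔ _
    tauto))
  mul_one x := El.ext (propext ⟨And.left, fun h => ⟨h, trivial⟩⟩) (Set.inter_univ _) (propext (by
    show (x.t ∧ False) ∨ (True ∧ x.P) ↔ _
    tauto))
  mul_comm x y := El.ext (propext and_comm) (Set.inter_comm _ _) (propext or_comm)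
  imp := imp
  f := bl False
  res := res
  le_one x := ⟨fun _ _ => trivial, fun e p => M.h1 (by have := x.hP p; rwa [e] at this),
    fun _ => trivial⟩
  f_le x := ⟨fun _ h => h.elim, fun _ h => h.elim, fun h => h.elim⟩

lemma eq_one (x : El M) : x = 1 ↔ x.t :=
  ⟨fun h => h ▸ trivial, fun h => El.ext (eq_true h) (x.ht h) (eq_false (x.ntp h))⟩

lemma le_of_empty (x y : El M) (h : x.A = ∅) : x ≤ y :=
  ⟨by simp [h], fun _ p => absurd (h ▸ x.hP p) M.h0, fun t => by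
    obtain ⟨a⟩ := M.ne
    have : a ∈ x.A := by simp [x.ht t]
    simp [h] at this⟩

lemma neg_t (x : El M) : (imp x (bl False)).t ↔ x.A = ∅ :=
  ⟨fun h => Set.eq_empty_of_forall_notMem fun _ ha => h.1 ha, fun h => le_of_empty x _ h⟩

end El

open El

lemma imp_t {M : Mod} (v : ℕ → El M) (φ ψ : Fm) :
    ((Fm.imp φ ψ).eval v).t ↔ φ.eval v ≤ ψ.eval v := Iff.rfl

/-- Classical truth. -/
def tr (u : ℕ → Prop) : Fm → Prop
  | .var n => u n
  | .and φ ψ => tr u φ ∧ tr u ψ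
  | .or φ ψ => tr u φ ∨ tr u ψ
  | .mul φ ψ => tr u φ ∧ tr u ψ
  | .imp φ ψ => tr u φ → tr u ψ
  | .e => True
  | .f => False

lemma tr_congr {u u' : ℕ → Prop} (φ : Fm) (h : ∀ n ∈ φ.vars, u n ↔ u' n) : tr u φ ↔ tr u' φ := by
  induction φ with
  | var n => exact h n (by simp [Fm.vars])
  | e => rfl
  | f => rfl
  | _ φ ψ h1 h2 =>
    simp only [tr, h1 fun n hn => h n (Finset.mem_union_left _ hn),
      h2 fun n hn => h n (Finset.mem_union_right _ hn)]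

lemma mem_eval {M : Mod} (v : ℕ → El M) (x : M.X) (φ : Fm) :
    x ∈ (φ.eval v).A ↔ tr (fun n => x ∈ (v n).A) φ := by
  induction φ with
  | var n => rfl
  | e => rfl
  | f => rfl
  | and φ ψ h1 h2 => exact and_congr h1 h2
  | or φ ψ h1 h2 => exact or_congr h1 h2
  | mul φ ψ h1 h2 => exact and_congr h1 h2
  | imp φ ψ h1 h2 => exact imp_iff_not_or.symm.trans (imp_congr h1 h2)

lemma eval_congr {A : Type} [FLew A] (v w : ℕ → A) (φ : Fm) (h : ∀ n ∈ φ.vars, v n = w n) :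
    φ.eval v = φ.eval w := by
  induction φ with
  | var n => exact h n (by simp [Fm.vars])
  | e => rfl
  | f => rfl
  | _ φ ψ h1 h2 =>
    simp only [Fm.eval, h1 fun n hn => h n (Finset.mem_union_left _ hn),
      h2 fun n hn => h n (Finset.mem_union_right _ hn)]

lemma bl_eval {M : Mod} (u : ℕ → Prop) (φ : Fm) :
    φ.eval (fun n => (bl (u n) : El M)) = bl (tr u φ) := by
  have h0 := M.h0
  have h1 := M.h1
  obtain ⟨a⟩ := M.ne
  have h2 : (Set.univ : Set M.X) ≠ ∅ := Set.Nonempty.ne_empty ⟨a, trivial⟩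
  induction φ with
  | var n => rfl
  | e => rfl
  | f => rfl
  | and φ ψ h3 h4 =>
    show inf _ _ = _
    rw [h3, h4, tr]
    by_cases p : tr u φ <;> by_cases q : tr u ψ <;> ext <;> simp [inf, bl, p, q, h0, h1]
  | or φ ψ h3 h4 =>
    show sup _ _ = _
    rw [h3, h4, tr]
    by_cases p : tr u φ <;> by_cases q : tr u ψ <;> ext <;> simp [sup, bl, p, q]
  | mul φ ψ h3 h4 =>
    show mul _ _ = _
    rw [h3, h4, tr]
    by_cases p : tr u φ <;> by_cases q : tr u ψ <;> ext <;> simp [mul, bl, p, q]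
  | imp φ ψ h3 h4 =>
    show imp _ _ = _
    rw [h3, h4, tr]
    by_cases p : tr u φ <;> by_cases q : tr u ψ <;> ext <;> simp [imp, le, bl, p, q, h0, h1]

section map
variable {M N : Mod} (g : N.X → M.X) (hg : Function.Surjective g)
  (hS : ∀ A, g ⁻¹' A ∈ N.S ↔ A ∈ M.S)

def map (x : El M) : El N :=
  ⟨x.t, g ⁻¹' x.A, x.P, fun p => (hS _).2 (x.hP p), fun t => by simp [x.ht t]⟩

include hg

lemma map_eval (v : ℕ → El M) (V : ℕ → El N) (φ : Fm)
    (h : ∀ n ∈ φ.vars, V n = map g hS (v n)) : φ.eval V = map g hS (φ.eval v) := by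
  have i : ∀ A B : Set M.X, g ⁻¹' A = g ⁻¹' B ↔ A = B := fun A B => Set.preimage_eq_preimage hg
  have j : ∀ A B : Set M.X, g ⁻¹' A ⊆ g ⁻¹' B ↔ A ⊆ B := fun A B =>
    hg.preimage_subset_preimage_iff
  induction φ with
  | var n => exact h n (by simp [Fm.vars])
  | e => rfl
  | f => rfl
  | and φ ψ h1 h2 =>
    show inf _ _ = map g hS (inf _ _)
    rw [h1 fun n hn => h n (Finset.mem_union_left _ hn),
      h2 fun n hn => h n (Finset.mem_union_right _ hn)]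
    refine El.ext rfl rfl ?_
    simp only [inf, map, ← Set.preimage_inter, i, hS]
  | or φ ψ h1 h2 =>
    show sup _ _ = map g hS (sup _ _)
    rw [h1 fun n hn => h n (Finset.mem_union_left _ hn),
      h2 fun n hn => h n (Finset.mem_union_right _ hn)]
    refine El.ext rfl rfl ?_
    simp only [sup, map, ← Set.preimage_union, i]
  | mul φ ψ h1 h2 =>
    show mul _ _ = map g hS (mul _ _)
    rw [h1 fun n hn => h n (Finset.mem_union_left _ hn),
      h2 fun n hn => h n (Finset.mem_union_right _ hn)]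
    rfl
  | imp φ ψ h1 h2 =>
    show imp _ _ = map g hS (imp _ _)
    rw [h1 fun n hn => h n (Finset.mem_union_left _ hn),
      h2 fun n hn => h n (Finset.mem_union_right _ hn)]
    refine El.ext ?_ rfl ?_
    · simp only [imp, map, le, i, j]
    · simp only [imp, map, ← Set.preimage_compl, ← Set.preimage_union, hS]

end map

/-! ### Types and amalgamation -/

def Free (n : ℕ) (M : Mod) : Prop :=
  ¬ ∃ s : Fin n → Set M.X, (∀ i, s i ∈ M.S) ∧ ∀ i j, i ≠ j → symmDiff (s i) (s j) ∈ M.S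

section
variable (Z : Finset ℕ)

def tau {M : Mod} (v : ℕ → El M) (x : M.X) : Z → Prop := fun z => x ∈ (v z).A

abbrev Ty := Set (Z → Prop) × Set (Set (Z → Prop)) × (Z → Prop) × (Z → Prop)

def ty {M : Mod} (v : ℕ → El M) : Ty Z :=
  (Set.range (tau Z v), {C | tau Z v ⁻¹' C ∈ M.S}, fun z => (v z).t, fun z => (v z).P)

variable {Z}

lemma amalg {M N : Mod} (v : ℕ → El M) (w : ℕ → El N) (h : ty Z v = ty Z w) :
    ∃ (D : Mod) (p : D.X → M.X) (q : D.X → N.X) (hp : ∀ A, p ⁻¹' A ∈ D.S ↔ A ∈ M.S)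
      (hq : ∀ A, q ⁻¹' A ∈ D.S ↔ A ∈ N.S), Function.Surjective p ∧ Function.Surjective q ∧
      (∀ n, Free n M → Free n N → Free n D) ∧ (∀ z ∈ Z, map p hp (v z) = map q hq (w z)) ∧
      (∀ d, tau Z v (p d) = tau Z w (q d)) ∧
      ∀ x y, tau Z v x = tau Z w y → ∃ d, p d = x ∧ q d = y := by
  simp only [ty, Prod.mk.injEq] at h
  obtain ⟨hr, hs, ht, hP⟩ := h
  have hs' : ∀ C, tau Z v ⁻¹' C ∈ M.S ↔ tau Z w ⁻¹' C ∈ N.S := fun C => Set.ext_iff.1 hs C
  let X := {d : M.X × N.X // tau Z v d.1 = tau Z w d.2}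
  let p : X → M.X := fun d => d.1.1
  let q : X → N.X := fun d => d.1.2
  have sp : Function.Surjective p := fun x => by
    obtain ⟨y, hy⟩ : tau Z v x ∈ Set.range (tau Z w) := hr ▸ ⟨x, rfl⟩
    exact ⟨⟨(x, y), hy.symm⟩, rfl⟩
  have sq : Function.Surjective q := fun y => by
    obtain ⟨x, hx⟩ : tau Z w y ∈ Set.range (tau Z v) := hr ▸ ⟨y, rfl⟩
    exact ⟨⟨(x, y), hx⟩, rfl⟩
  have st : ∀ A B, p ⁻¹' A = q ⁻¹' B → (A ∈ M.S ↔ B ∈ N.S) := by
    intro A B e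
    have e' : ∀ x y, tau Z v x = tau Z w y → (x ∈ A ↔ y ∈ B) := fun x y h =>
      Set.ext_iff.1 e ⟨(x, y), h⟩
    have a : A = tau Z v ⁻¹' (tau Z v '' A) := by
      refine (Set.subset_preimage_image _ _).antisymm ?_
      rintro x ⟨a, ha, e2⟩
      obtain ⟨d, rfl⟩ := sp x
      exact (e' _ _ d.2).2 ((e' _ _ (e2.trans d.2)).1 ha)
    have b : B = tau Z w ⁻¹' (tau Z v '' A) := by
      ext y
      constructor
      · intro hy
        obtain ⟨d, rfl⟩ := sq y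
        exact ⟨_, (e' _ _ d.2).2 hy, d.2⟩
      · rintro ⟨a, ha, e2⟩
        exact (e' _ _ e2).1 ha
    rw [b, ← hs', ← a]
  let S : Set (Set X) := {s | (∃ A ∈ M.S, s = p ⁻¹' A) ∨ ∃ B ∈ N.S, s = q ⁻¹' B}
  have hp : ∀ A, p ⁻¹' A ∈ S ↔ A ∈ M.S := fun A => ⟨by
    rintro (⟨A', h, e⟩ | ⟨B, h, e⟩)
    · rwa [(Set.preimage_eq_preimage sp).1 e]
    · exact (st _ _ e).2 h, fun h => Or.inl ⟨A, h, rfl⟩⟩
  have hq : ∀ A, q ⁻¹' A ∈ S ↔ A ∈ N.S := fun A => ⟨by
    rintro (⟨A', h, e⟩ | ⟨B, h, e⟩)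
    · exact (st _ _ e.symm).1 h
    · rwa [(Set.preimage_eq_preimage sq).1 e], fun h => Or.inr ⟨A, h, rfl⟩⟩
  obtain ⟨x0⟩ := M.ne
  obtain ⟨d0, -⟩ := sp x0
  refine ⟨⟨X, ⟨d0⟩, S, fun h => M.h0 ((hp ∅).1 h), fun h => M.h1 ((hp Set.univ).1 h)⟩, p, q,
    hp, hq, sp, sq, ?_, ?_, fun d => d.2, fun x y h => ⟨⟨(x, y), h⟩, rfl, rfl⟩⟩
  · rintro n fM fN ⟨s, h1, h2⟩
    by_cases a : ∀ i, ∃ A, s i = p ⁻¹' A
    · choose A hA using a
      refine fM ⟨A, fun i => (hp _).1 (hA i ▸ h1 i), fun i j hij => (hp _).1 ?_⟩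
      have := h2 i j hij
      rwa [hA, hA, ← Set.preimage_symmDiff] at this
    by_cases b : ∀ i, ∃ A, s i = q ⁻¹' A
    · choose A hA using b
      refine fN ⟨A, fun i => (hq _).1 (hA i ▸ h1 i), fun i j hij => (hq _).1 ?_⟩
      have := h2 i j hij
      rwa [hA, hA, ← Set.preimage_symmDiff] at this
    push Not at a b
    obtain ⟨i, hi⟩ := a
    obtain ⟨j, hj⟩ := b
    obtain ⟨B, -, hB⟩ := (h1 i).resolve_left (by rintro ⟨A, -, e⟩; exact hi A e)
    obtain ⟨A, -, hA⟩ := (h1 j).resolve_right (by rintro ⟨A, -, e⟩; exact hj A e)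
    have hij : i ≠ j := by
      rintro rfl
      exact hi A hA
    rcases h2 i j hij with ⟨C, -, e⟩ | ⟨C, -, e⟩
    · refine hi (symmDiff C A) ?_
      rw [Set.preimage_symmDiff, ← e, ← hA, symmDiff_symmDiff_cancel_right]
    · refine hj (symmDiff B C) ?_
      rw [Set.preimage_symmDiff, ← e, ← hB, symmDiff_symmDiff_cancel_left]
  · intro z hz
    refine El.ext (congrFun ht ⟨z, hz⟩) ?_ (congrFun hP ⟨z, hz⟩)
    ext d
    exact (congrFun d.2 ⟨z, hz⟩).to_iff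

lemma transfer {M N : Mod} (v : ℕ → El M) (w : ℕ → El N) (h : ty Z v = ty Z w) (θ : Fm)
    (hθ : θ.vars ⊆ Z) : ((θ.eval v).t ↔ (θ.eval w).t) ∧ ((θ.eval v).P ↔ (θ.eval w).P) := by
  obtain ⟨D, p, q, hp, hq, sp, sq, -, e, -⟩ := amalg v w h
  have a := map_eval p sp hp v (fun n => map p hp (v n)) θ fun _ _ => rfl
  have b := map_eval q sq hq w (fun n => map p hp (v n)) θ fun n hn => e n (hθ hn)
  rw [a] at b
  exact ⟨(congrArg El.t b).to_iff, (congrArg El.P b).to_iff⟩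

lemma definable (C : Set (Z → Prop)) :
    ∃ θ : Fm, θ.vars ⊆ Z ∧ ∀ u, tr u θ ↔ (fun z : Z => u z) ∈ C := by
  classical
  have one : ∀ (t : Z → Prop) (W : Finset Z), ∃ θ : Fm, θ.vars ⊆ Z ∧
      ∀ u, tr u θ ↔ ∀ z ∈ W, (u z ↔ t z) := by
    intro t W
    induction W using Finset.induction_on with
    | empty => exact ⟨.e, by simp [Fm.vars], by simp [tr]⟩
    | insert z W _ ih =>
      obtain ⟨θ, h1, h2⟩ := ih
      by_cases hz : t z
      · exact ⟨.and (.var z) θ, by simp [Fm.vars, Finset.insert_subset_iff, h1],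
          by simp [tr, h2, hz]⟩
      · exact ⟨.and (.imp (.var z) .f) θ, by simp [Fm.vars, Finset.insert_subset_iff, h1],
          by simp [tr, h2, hz]⟩
  induction C, Set.toFinite C using Set.Finite.induction_on with
  | empty => exact ⟨.f, by simp [Fm.vars], by simp [tr]⟩
  | @insert t C _ _ ih =>
    obtain ⟨θ, h1, h2⟩ := ih
    obtain ⟨η, h3, h4⟩ := one t Finset.univ
    refine ⟨.or η θ, Finset.union_subset h3 h1, fun u => ?_⟩
    simp only [tr, h2, h4, Set.mem_insert_iff, funext_iff, eq_iff_iff, Finset.mem_univ,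
      true_imp_iff]

lemma definable' (C : Set (Z → Prop)) : ∃ θ : Fm, θ.vars ⊆ Z ∧
    (∀ u, tr u θ ↔ (fun z : Z => u z) ∈ C) ∧
    ∀ (M : Mod) (v : ℕ → El M), (θ.eval v).A = tau Z v ⁻¹' C := by
  obtain ⟨θ, h1, h2⟩ := definable C
  exact ⟨θ, h1, h2, fun M v => Set.ext fun x => (mem_eval v x θ).trans (h2 _)⟩

def ng (φ : Fm) : Fm := .imp φ .f

def T (φ : Fm) : Fm := .imp (.and (ng (ng φ)) (.or φ (ng φ))) (.mul φ φ)

lemma ng_t {M : Mod} (v : ℕ → El M) (φ : Fm) : ((ng φ).eval v).t ↔ (φ.eval v).A = ∅ := neg_t _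

lemma T_t {M : Mod} (v : ℕ → El M) (φ : Fm) : ((T φ).eval v).t ↔ (φ.eval v).A ∉ M.S := by
  show le (inf (imp (imp (φ.eval v) (bl False)) (bl False))
    (sup (φ.eval v) (imp (φ.eval v) (bl False)))) (mul (φ.eval v) (φ.eval v)) ↔ _
  generalize φ.eval v = x
  have h0 := M.h0
  have h1 := M.h1
  have h2 := x.ntp
  have h3 := neg_t x
  have h4 := neg_t (imp x (bl False))
  obtain ⟨a⟩ := M.ne
  have h5 : (Set.univ : Set M.X) ≠ ∅ := Set.Nonempty.ne_empty ⟨a, trivial⟩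
  have e : (imp x (bl False)).A = x.Aᶜ := by simp [imp, bl]
  have e2 : (imp (imp x (bl False)) (bl False)).A = x.A := by simp [imp, bl]
  have e3 : (imp (imp x (bl False)) (bl False)).P ↔ x.A ∈ M.S ∧ x.A ≠ ∅ := by
    rw [ne_eq, ← h3]
    conv_rhs => rw [← e2]
    rfl
  simp only [le, inf, sup, mul, e, e2, e3, h3, h4, Set.union_compl_self, Set.inter_univ,
    Set.inter_self, Set.compl_empty_iff]
  constructor
  · intro h hs
    have := h.2.1 trivial ⟨hs, fun _ => ⟨hs, fun e => h0 (e ▸ hs)⟩, fun e => absurd (e ▸ hs) h1⟩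
    tauto
  · intro hs
    refine ⟨le_rfl, fun _ h => absurd h.1 hs, ?_⟩
    rintro ⟨e, h | h⟩
    · exact ⟨h, h⟩
    · exact absurd (e.symm.trans h) h5

lemma ty_of_diag {M N : Mod} (v : ℕ → El M) (w : ℕ → El N)
    (h : ∀ θ : Fm, θ.vars ⊆ Z → ((θ.eval v).t ↔ (θ.eval w).t)) : ty Z v = ty Z w := by
  simp only [ty, Prod.mk.injEq]
  refine ⟨?_, ?_, ?_, ?_⟩
  · ext t
    obtain ⟨θ, h1, -, h2⟩ := definable' {t}
    have := h (ng θ) (by simpa [ng, Fm.vars] using h1)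
    rw [ng_t, ng_t, h2, h2, ← not_iff_not] at this
    simpa only [← ne_eq, ← Set.nonempty_iff_ne_empty, Set.preimage_singleton_nonempty] using this
  · ext C
    obtain ⟨θ, h1, -, h2⟩ := definable' C
    have := h (T θ) (by simpa [T, ng, Fm.vars] using h1)
    rwa [T_t, T_t, h2, h2, not_iff_not] at this
  · ext z
    exact h (.var z) (by simp [Fm.vars])
  · have k : ∀ {M : Mod} (x : El M), le x (mul x x) ↔ ¬ x.P := fun x => by
      have := x.ntp
      simp only [le, mul, Set.inter_self]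
      tauto
    ext z
    have := h (.imp (.var z) (.mul (.var z) (.var z))) (by simp [Fm.vars])
    exact not_iff_not.1 ((k _).symm.trans (this.trans (k _)))

lemma fin_rep (Θ : Set Fm) (hΘ : ∀ θ ∈ Θ, θ.vars ⊆ Z) : ∃ l : List Fm, (∀ θ ∈ l, θ ∈ Θ) ∧
    ∀ θ ∈ Θ, ∃ η ∈ l, ∀ (M : Mod) (v : ℕ → El M), θ.eval v = η.eval v := by
  let cl : Fm → Set (Z → Prop) × Set (Ty Z) × Set (Ty Z) := fun θ =>
    ({t | ∃ u, (fun z : Z => u z) = t ∧ tr u θ},
      {y | ∃ (M : Mod) (v : ℕ → El M), ty Z v = y ∧ (θ.eval v).t},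
      {y | ∃ (M : Mod) (v : ℕ → El M), ty Z v = y ∧ (θ.eval v).P})
  have key : ∀ θ η : Fm, θ.vars ⊆ Z → η.vars ⊆ Z → cl θ = cl η → ∀ (M : Mod) (v : ℕ → El M),
      θ.eval v ≤ η.eval v := by
    intro θ η _ hη e M v
    simp only [cl, Prod.mk.injEq, Set.ext_iff, Set.mem_setOf_eq] at e
    refine ⟨fun x hx => ?_, fun _ p => ?_, fun t => ?_⟩
    · obtain ⟨u, h1, h2⟩ := (e.1 _).1 ⟨_, rfl, (mem_eval v x θ).1 hx⟩
      exact (mem_eval v x η).2 ((tr_congr η fun n hn =>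
        (congrFun h1 ⟨n, hη hn⟩).to_iff).1 h2)
    · obtain ⟨N, w, h1, h2⟩ := (e.2.2 _).1 ⟨M, v, rfl, p⟩
      exact (transfer w v h1 η hη).2.1 h2
    · obtain ⟨N, w, h1, h2⟩ := (e.2.1 _).1 ⟨M, v, rfl, t⟩
      exact (transfer w v h1 η hη).1.1 h2
  obtain ⟨t, h1, h2, h3⟩ := (Set.toFinite (cl '' Θ)).exists_subset_finite_image_eq le_rfl
  refine ⟨h2.toFinset.toList, fun θ h => h1 (by simpa using h), fun θ h => ?_⟩
  obtain ⟨η, a, b⟩ : cl θ ∈ cl '' t := h3 ▸ ⟨θ, h, rfl⟩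
  exact ⟨η, by simpa using a, fun M v => le_antisymm (key _ _ (hΘ _ h) (hΘ _ (h1 a)) b.symm M v)
    (key _ _ (hΘ _ (h1 a)) (hΘ _ h) b M v)⟩

def conj : List Fm → Fm
  | [] => .e
  | φ :: l => .and φ (conj l)

def disj : List Fm → Fm
  | [] => .f
  | φ :: l => .or φ (disj l)

lemma le_conj {A : Type} [FLew A] (v : ℕ → A) (a : A) (l : List Fm) :
    a ≤ (conj l).eval v ↔ ∀ φ ∈ l, a ≤ φ.eval v := by
  induction l with
  | nil => simp [conj, Fm.eval, FLew.le_one]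
  | cons φ l ih => simp [conj, Fm.eval, ih]

lemma disj_le {A : Type} [FLew A] (v : ℕ → A) (a : A) (l : List Fm) :
    (disj l).eval v ≤ a ↔ ∀ φ ∈ l, φ.eval v ≤ a := by
  induction l with
  | nil => simp [disj, Fm.eval, FLew.f_le]
  | cons φ l ih => simp [disj, Fm.eval, ih]

lemma disj_t {M : Mod} (v : ℕ → El M) (l : List Fm) :
    ((disj l).eval v).t ↔ ∃ φ ∈ l, (φ.eval v).t := by
  induction l with
  | nil => simp [disj, Fm.eval]; exact id
  | cons φ l ih =>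
    simp only [List.mem_cons, exists_eq_or_imp, ← ih]
    rfl

lemma cd_vars (l : List Fm) (h : ∀ φ ∈ l, φ.vars ⊆ Z) : (conj l).vars ⊆ Z ∧ (disj l).vars ⊆ Z := by
  induction l with
  | nil => simp [conj, disj, Fm.vars]
  | cons φ l ih =>
    simp only [List.forall_mem_cons] at h
    exact ⟨Finset.union_subset h.1 (ih h.2).1, Finset.union_subset h.1 (ih h.2).2⟩

lemma glb (Θ : Set Fm) (hΘ : ∀ θ ∈ Θ, θ.vars ⊆ Z) : ∃ χ : Fm, χ.vars ⊆ Z ∧
    ∀ (M : Mod) (v : ℕ → El M) (a : El M), a ≤ χ.eval v ↔ ∀ θ ∈ Θ, a ≤ θ.eval v := by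
  obtain ⟨l, h1, h2⟩ := fin_rep Θ hΘ
  refine ⟨conj l, (cd_vars l fun φ h => hΘ _ (h1 _ h)).1, fun M v a => ?_⟩
  rw [le_conj]
  refine ⟨fun h θ hθ => ?_, fun h θ hθ => h θ (h1 θ hθ)⟩
  obtain ⟨η, a, b⟩ := h2 θ hθ
  exact b M v ▸ h η a

lemma lub (Θ : Set Fm) (hΘ : ∀ θ ∈ Θ, θ.vars ⊆ Z) : ∃ χ : Fm, χ.vars ⊆ Z ∧
    ∀ (M : Mod) (v : ℕ → El M) (a : El M), χ.eval v ≤ a ↔ ∀ θ ∈ Θ, θ.eval v ≤ a := by
  obtain ⟨l, h1, h2⟩ := fin_rep Θ hΘ
  refine ⟨disj l, (cd_vars l fun φ h => hΘ _ (h1 _ h)).2, fun M v a => ?_⟩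
  rw [disj_le]
  refine ⟨fun h θ hθ => ?_, fun h θ hθ => h θ (h1 θ hθ)⟩
  obtain ⟨η, a, b⟩ := h2 θ hθ
  exact b M v ▸ h η a

end

/-! ### Interpolation -/

lemma le_of_t {M : Mod} (x y : El M) (h : y.t) : x ≤ y := (eq_one y).2 h ▸ FLew.le_one x

section
variable {n : ℕ} {α β : Fm}
  (H : ∀ (M : Mod), Free n M → ∀ v : ℕ → El M, α.eval v ≤ β.eval v)
  {N : Mod} (fN : Free n N) (w : ℕ → El N) (hβ : ¬ (β.eval w).t)
include H fN

lemma classical (u : ℕ → Prop) (h : tr u α) : tr u β := by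
  have := (H N fN fun n => bl (u n)).2.2
  rw [bl_eval, bl_eval] at this
  exact this h

include hβ

lemma star (θ0 : Fm) (h0 : θ0.vars ⊆ α.vars ∩ β.vars)
    (hm : ∀ θ : Fm, θ.vars ⊆ α.vars ∩ β.vars → θ.eval w ≤ β.eval w → θ.eval w ≤ θ0.eval w)
    (u : ℕ → Prop) (hu : ∀ θ : Fm, θ.vars ⊆ α.vars ∩ β.vars → (θ.eval w).t → tr u θ)
    (ha : tr u α) : tr u θ0 := by
  classical
  by_cases hk : ∀ z ∈ α.vars ∩ β.vars, ((Fm.or (.var z) (ng (.var z))).eval w).t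
  · exfalso
    let V : ℕ → El N := fun m => if m ∈ β.vars then w m else bl (u m)
    have e1 : α.eval V = bl (tr u α) := by
      rw [← bl_eval]
      refine eval_congr _ _ _ fun m hm => ?_
      simp only [V]
      split_ifs with hb
      · have hz : m ∈ α.vars ∩ β.vars := Finset.mem_inter.2 ⟨hm, hb⟩
        rcases hk m hz with t | t
        · have : u m := hu (.var m) (by simpa [Fm.vars] using hz) t
          rw [eq_true this]
          exact (eq_one _).2 t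
        · have : ¬ u m := hu (ng (.var m)) (by simpa [ng, Fm.vars] using hz) t
          rw [eq_false this]
          exact le_antisymm t (FLew.f_le _)
      · rfl
    have e2 : β.eval V = β.eval w := eval_congr _ _ _ fun m hm => if_pos hm
    have := (H N fN V).2.2
    rw [e1, e2] at this
    exact hβ (this ha)
  · push Not at hk
    obtain ⟨z, hz, hk⟩ := hk
    set κ := Fm.or (.var z) (ng (.var z)) with hκ
    have kv : κ.vars ⊆ α.vars ∩ β.vars := by simpa [κ, ng, Fm.vars] using hz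
    have kt : ∀ u, tr u κ := fun u => em _
    obtain ⟨θ, h1, h2, h3⟩ := definable' (Z := α.vars ∩ β.vars)
      {fun z : (α.vars ∩ β.vars : Finset ℕ) => u z}
    have ne : (θ.eval w).A ≠ ∅ := fun e =>
      hu (ng θ) (by simpa [ng, Fm.vars] using h1) ((ng_t w θ).2 e) ((h2 u).2 rfl)
    obtain ⟨y0, hy0⟩ := Set.nonempty_iff_ne_empty.2 ne
    have sub : (θ.eval w).A ⊆ (β.eval w).A := by
      intro y hy
      rw [h3] at hy
      let u' : ℕ → Prop := fun m => if m ∈ β.vars then y ∈ (w m).A else u m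
      have : tr u' α := (tr_congr α fun m hm => by
        simp only [u']
        split_ifs with hb
        · exact (congrFun hy ⟨m, Finset.mem_inter.2 ⟨hm, hb⟩⟩).to_iff
        · rfl).2 ha
      exact (mem_eval w y β).2 ((tr_congr β fun m hm => by simp only [u', if_pos hm]).1
        (classical H fN u' this))
    have := hm (.mul (.mul θ κ) κ) (Finset.union_subset (Finset.union_subset h1 kv) kv)
      ⟨fun y hy => sub hy.1.1, by
        rintro - (⟨t, -⟩ | ⟨t, -⟩)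
        · exact absurd t.2 hk
        · exact absurd t hk, fun t => absurd t.2 hk⟩
    have y1 : y0 ∈ (κ.eval w).A := (mem_eval w y0 κ).2 (kt _)
    have := (mem_eval w y0 θ0).1 (this.1 ⟨⟨hy0, y1⟩, y1⟩)
    rw [h3] at hy0
    exact (tr_congr θ0 fun m hm => (congrFun hy0 ⟨m, h0 hm⟩).to_iff).1 this

lemma super {M : Mod} (fM : Free n M) (v : ℕ → El M)
    (h : ty (α.vars ∩ β.vars) v = ty (α.vars ∩ β.vars) w) (κ : Fm)
    (kv : κ.vars ⊆ α.vars ∩ β.vars) (kt : ∀ u, tr u κ) (hk : ¬ (κ.eval w).t) :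
    ∃ θ : Fm, θ.vars ⊆ α.vars ∩ β.vars ∧ α.eval v ≤ θ.eval v ∧ θ.eval w ≤ β.eval w := by
  classical
  have hk' : ¬ (κ.eval v).t := mt (transfer v w h κ kv).1.1 hk
  have ka : ∀ {M : Mod} (v : ℕ → El M), (κ.eval v).A = Set.univ := fun v =>
    Set.eq_univ_of_forall fun x => (mem_eval v x κ).2 (kt _)
  obtain ⟨D, p, q, hp, hq, sp, sq, fD, e, t1, t2⟩ := amalg v w h
  let V : ℕ → El D := fun m => if m ∈ α.vars then map p hp (v m) else map q hq (w m)
  have := H D (fD n fM fN) V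
  rw [map_eval p sp hp v V α fun m hm => if_pos hm, map_eval q sq hq w V β fun m hm => by
    simp only [V]
    split_ifs with ha
    · exact e m (Finset.mem_inter.2 ⟨ha, hm⟩)
    · rfl] at this
  obtain ⟨c1, c2, c3⟩ := this
  obtain ⟨θ, h1, -, h3⟩ := definable' (tau (α.vars ∩ β.vars) v '' (α.eval v).A)
  have s1 : (α.eval v).A ⊆ (θ.eval v).A := by rw [h3]; exact Set.subset_preimage_image _ _
  have s2 : (θ.eval w).A ⊆ (β.eval w).A := by
    rw [h3]
    rintro y ⟨x, hx, e⟩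
    obtain ⟨d, rfl, rfl⟩ := t2 x y e
    exact c1 hx
  by_cases hc : (α.eval v).A = (θ.eval v).A ∧ (α.eval v).P
  · refine ⟨.and (.imp κ θ) κ, Finset.union_subset (Finset.union_subset kv h1) kv, ?_, ?_⟩
    · have hs := (α.eval v).hP hc.2
      refine le_inf ⟨fun x hx => Or.inr (s1 hx), fun e _ => ⟨?_, fun t => absurd t hk'⟩,
        fun t => absurd (c3 t) hβ⟩ ⟨by simp [ka], fun e => ?_, fun t => absurd (c3 t) hβ⟩
      · rwa [e] at hs
      · rw [e, ka] at hs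
        exact absurd hs M.h1
    · have a : ((Fm.and (.imp κ θ) κ).eval w).A = (θ.eval w).A := by
        show ((κ.eval w).Aᶜ ∪ (θ.eval w).A) ∩ (κ.eval w).A = _
        simp [ka]
      refine ⟨a ▸ s2, fun e' _ => c2 ?_ hc.2, fun t => absurd t.2 hk⟩
      show p ⁻¹' _ = q ⁻¹' _
      rw [← e', a, hc.1, h3, h3]
      ext d
      simp only [Set.mem_preimage, t1]
  · refine ⟨.mul (.mul θ κ) κ, Finset.union_subset (Finset.union_subset h1 kv) kv, ?_, ?_⟩
    · have a : ((Fm.mul (.mul θ κ) κ).eval v).A = (θ.eval v).A := by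
        show ((θ.eval v).A ∩ (κ.eval v).A) ∩ (κ.eval v).A = _
        simp [ka]
      exact ⟨a ▸ s1, fun e p => absurd ⟨e.trans a, p⟩ hc, fun t => absurd (c3 t) hβ⟩
    · refine ⟨fun y hy => s2 hy.1.1, ?_, fun t => absurd t.2 hk⟩
      rintro - (⟨t, -⟩ | ⟨t, -⟩)
      · exact absurd t.2 hk
      · exact absurd t hk

lemma key : ∃ δ : Fm, δ.vars ⊆ α.vars ∩ β.vars ∧
    (∀ (M : Mod), Free n M → ∀ v : ℕ → El M, α.eval v ≤ δ.eval v) ∧ δ.eval w ≤ β.eval w := by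
  obtain ⟨θ0, h0, l0⟩ := lub {θ | θ.vars ⊆ α.vars ∩ β.vars ∧ θ.eval w ≤ β.eval w} fun _ h => h.1
  obtain ⟨χ, hχ, g0⟩ := glb {θ | θ.vars ⊆ α.vars ∩ β.vars ∧ (θ.eval w).t} fun _ h => h.1
  have hm : ∀ θ : Fm, θ.vars ⊆ α.vars ∩ β.vars → θ.eval w ≤ β.eval w →
      θ.eval w ≤ θ0.eval w := fun θ a b => (l0 N w _).1 le_rfl θ ⟨a, b⟩
  refine ⟨.imp (.mul χ χ) θ0, Finset.union_subset (Finset.union_subset hχ hχ) h0, ?_, ?_⟩
  · intro M fM v
    have lo : ∀ θ : Fm, θ.vars ⊆ α.vars ∩ β.vars → (θ.eval w).t → χ.eval v ≤ θ.eval v :=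
      fun θ a b => (g0 M v _).1 le_rfl θ ⟨a, b⟩
    have pt : ∀ x ∈ (χ.eval v).A, x ∈ (α.eval v).A → x ∈ (θ0.eval v).A := fun x hx ha =>
      (mem_eval v x θ0).2 (star H fN w hβ θ0 h0 hm _
        (fun θ a b => (mem_eval v x θ).1 ((lo θ a b).1 hx)) ((mem_eval v x α).1 ha))
    refine (res _ _ _).1 ?_
    by_cases ct : (χ.eval v).t
    · have c1 := (eq_one _).2 ct
      show χ.eval v * χ.eval v * α.eval v ≤ _
      rw [c1, mul_one, one_mul]
      set κ := Fm.or θ0 (ng θ0) with hκ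
      have kv : κ.vars ⊆ α.vars ∩ β.vars := by simpa [κ, ng, Fm.vars] using h0
      have kt : ∀ u, tr u κ := fun u => em _
      by_cases hk : (κ.eval v).t
      · rcases hk with t | t
        · exact le_of_t _ _ t
        · refine le_of_empty _ _ (Set.eq_empty_of_forall_notMem fun x hx => ?_)
          have := pt x (by simp [(χ.eval v).ht ct]) hx
          rw [(ng_t v θ0).1 t] at this
          exact this
      · have d : ∀ θ : Fm, θ.vars ⊆ α.vars ∩ β.vars → ((θ.eval v).t ↔ (θ.eval w).t) := by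
          intro θ a
          refine ⟨fun t => ?_, fun t => (lo θ a t).2.2 ct⟩
          by_contra t'
          have ka : (κ.eval w).A = Set.univ :=
            Set.eq_univ_of_forall fun x => (mem_eval w x κ).2 (kt _)
          have : θ.eval w ≤ κ.eval w := ⟨by simp [ka], fun e p => by
            have := (θ.eval w).hP p
            rw [e, ka] at this
            exact absurd this N.h1, fun t => absurd t t'⟩
          exact hk (((lo (.imp θ κ) (Finset.union_subset a kv) this).2.2 ct).2.2 t)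
        obtain ⟨θ, a, b, c⟩ := super H fN w hβ fM v (ty_of_diag v w d) κ kv kt
          (mt (d κ kv).2 hk)
        exact b.trans ((d (.imp θ θ0) (Finset.union_subset a h0)).2 (hm θ a c))
    · refine ⟨fun x hx => pt x hx.1.1 hx.2, ?_, fun t => absurd t.1.1 ct⟩
      rintro - (⟨t, -⟩ | ⟨-, ⟨t, -⟩ | ⟨t, -⟩⟩)
      · exact absurd t.1 ct
      · exact absurd t ct
      · exact absurd t ct
  · have c1 : χ.eval w = 1 := le_antisymm (FLew.le_one _)
      ((g0 N w 1).2 fun θ h => le_of_t _ _ h.2)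
    have := (FLew.res (χ.eval w * χ.eval w) (FLew.imp (χ.eval w * χ.eval w) (θ0.eval w))
      (θ0.eval w)).2 le_rfl
    rw [show χ.eval w * χ.eval w * FLew.imp (χ.eval w * χ.eval w) (θ0.eval w) =
      FLew.imp (χ.eval w * χ.eval w) (θ0.eval w) by rw [c1, mul_one, one_mul]] at this
    exact this.trans ((l0 N w _).2 fun θ h => h.2)

end

def L (n : ℕ) : Set Fm := {φ | ∀ (M : Mod), Free n M → ∀ v : ℕ → El M, (φ.eval v).t}

lemma cip (n : ℕ) : CIP (L n) := by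
  intro α β H
  obtain ⟨δ, h1, h2⟩ := glb {δ | δ.vars ⊆ α.vars ∩ β.vars ∧
    ∀ (M : Mod), Free n M → ∀ v : ℕ → El M, α.eval v ≤ δ.eval v} fun _ h => h.1
  refine ⟨δ, fun M fM v => (h2 M v _).2 fun θ h => h.2 M fM v, fun N fN w => ?_, h1⟩
  by_cases hβ : (β.eval w).t
  · exact le_of_t _ _ hβ
  · obtain ⟨η, a, b, c⟩ := key H fN w hβ
    exact ((h2 N w _).1 le_rfl η ⟨a, b⟩).trans c

lemma eval_subst {A : Type} [FLew A] (v : ℕ → A) (σ : ℕ → Fm) (φ : Fm) :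
    (φ.subst σ).eval v = φ.eval (fun n => (σ n).eval v) := by
  induction φ <;> simp_all [Fm.subst, Fm.eval]

lemma L_ext (n : ℕ) : SubstClosed (L n) ∧ L n = {φ | Ext (L n) ∅ φ} := by
  refine ⟨fun σ φ h M fM v => by rw [eval_subst]; exact h M fM _, ?_⟩
  ext φ
  refine ⟨fun h A _ v hv => hv φ (Or.inr h), fun h M fM v => (eq_one _).1 (h _ v ?_)⟩
  rintro γ (hγ | hγ)
  · exact hγ.elim
  · exact (eq_one _).2 (hγ M fM v)

def sd (i j : ℕ) : Fm := .or (.and (.var i) (ng (.var j))) (.and (.var j) (ng (.var i)))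

lemma sd_A {M : Mod} (v : ℕ → El M) (i j : ℕ) :
    ((sd i j).eval v).A = symmDiff (v i).A (v j).A := by
  ext x
  rw [mem_eval, Set.mem_symmDiff]
  rfl

lemma sep (n : ℕ) : ∃ φ ∈ L n, ∃ k, ∀ m, k < m → φ ∉ L m := by
  classical
  let Φ : Finset Fm := Finset.univ.image fun p : Fin n × Fin n =>
    if p.1 = p.2 then T (.var p.1) else T (sd p.1 p.2)
  have hΦ : ∀ {M : Mod} (v : ℕ → El M), ((disj Φ.toList).eval v).t ↔
      ¬ ((∀ i : Fin n, (v i).A ∈ M.S) ∧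
        ∀ i j : Fin n, i ≠ j → symmDiff (v i).A (v j).A ∈ M.S) := by
    intro M v
    rw [disj_t]
    simp only [Φ, Finset.mem_toList, Finset.mem_image, Finset.mem_univ, true_and,
      Prod.exists]
    constructor
    · rintro ⟨_, ⟨i, j, rfl⟩, h⟩ ⟨h1, h2⟩
      split_ifs at h with e
      · exact (T_t v _).1 h (h1 i)
      · exact (T_t v _).1 h (by rw [sd_A]; exact h2 i j e)
    · intro h
      by_contra hc
      push Not at hc
      refine h ⟨fun i => ?_, fun i j e => ?_⟩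
      · have := hc _ ⟨i, i, rfl⟩
        rwa [if_pos rfl, T_t, not_not] at this
      · have := hc _ ⟨i, j, rfl⟩
        rwa [if_neg e, T_t, not_not, sd_A] at this
  refine ⟨disj Φ.toList, fun M fM v => (hΦ v).2 fun h => fM ⟨_, h⟩,
    Fintype.card (Set (Option (Fin n))), fun m hm h => ?_⟩
  let M : Mod := ⟨Option (Fin n), ⟨none⟩, {s | s ≠ ∅ ∧ none ∉ s}, by simp, by simp⟩
  have fM : Free m M := by
    rintro ⟨s, -, h2⟩
    have : Function.Injective s := fun i j e => by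
      by_contra hij
      exact (h2 i j hij).1 (by simp [e])
    have := Fintype.card_le_of_injective s this
    rw [Fintype.card_fin] at this
    exact absurd hm (not_lt.2 this)
  let v : ℕ → El M := fun k => ⟨False, {x | ∃ i : Fin n, x = some i ∧ i.1 = k}, False,
    False.elim, False.elim⟩
  refine (hΦ v).1 (h M fM v) ⟨fun i => ⟨?_, by rintro ⟨_, h, -⟩; cases h⟩,
    fun i j e => ⟨?_, ?_⟩⟩
  · exact Set.Nonempty.ne_empty ⟨some i, i, rfl, rfl⟩
  · refine Set.Nonempty.ne_empty ⟨some i, Or.inl ⟨⟨i, rfl, rfl⟩, ?_⟩⟩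
    rintro ⟨k, h1, h2⟩
    cases h1
    exact e (Fin.ext h2)
  · rintro (⟨⟨_, h, -⟩, -⟩ | ⟨⟨_, h, -⟩, -⟩) <;> cases h

theorem result :
    Set.Infinite {T : Set Fm | (∃ A, SubstClosed A ∧ T = {φ | Ext A ∅ φ}) ∧ CIP T} := by
  intro hf
  haveI := hf.to_subtype
  obtain ⟨T, hT⟩ := Finite.exists_infinite_fiber (fun n : ℕ =>
    (⟨L n, ⟨L n, L_ext n⟩, cip n⟩ : {T : Set Fm | (∃ A, SubstClosed A ∧
      T = {φ | Ext A ∅ φ}) ∧ CIP T}))
  rw [Set.infinite_coe_iff] at hT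
  obtain ⟨n, hn⟩ := hT.nonempty
  obtain ⟨φ, h1, k, h2⟩ := sep n
  obtain ⟨m, hm, hk⟩ := hT.exists_gt k
  have e : L n = L m := congrArg Subtype.val (hn.trans hm.symm)
  exact h2 m hk (e ▸ h1)

end Pool.Agent.Results.MP_dd1479_lc.Infinite
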